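import Mathlib

/-!
# Definitions: rich lines in dense subsets of cubes of finitely generated subgroups of the plane

The Euclidean plane is `ℂ`.  `L v x = ∑ i, x i * v i` for an integer vector `x`.
-/

set_option autoImplicit false

open scoped ComplexConjugate
open Finset Polynomial

namespace Pool.Agent.RL

/-- The number of distinct nonzero distances of a finite subset of the plane. -/
noncomputable def numDist (A : Finset ℂ) : ℕ := (A.offDiag.image fun p => dist p.1 p.2).card

open Classical in
/-- The points of `A` on the line `p + ℝ w`. -/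
noncomputable def onLine (A : Finset ℂ) (p w : ℂ) : Finset ℂ := A.filter fun z => ∃ t : ℝ, z = p + t * w

section

variable {d : ℕ}

/-- The linear combination of the generators with integer coefficients `x`. -/
noncomputable def L (v : Fin d → ℂ) (x : Fin d → ℤ) : ℂ := ∑ i, (x i : ℂ) * v i

theorem L_add (v : Fin d → ℂ) (x y : Fin d → ℤ) : L v (x + y) = L v x + L v y := by
  simp only [L, Pi.add_apply, Int.cast_add, add_mul, sum_add_distrib]

theorem L_zero (v : Fin d → ℂ) : L v 0 = 0 := by
  simp only [L, Pi.zero_apply, Int.cast_zero, zero_mul, sum_const_zero]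

theorem L_smul (v : Fin d → ℂ) (n : ℤ) (x : Fin d → ℤ) : L v (n • x) = n * L v x := by
  simp only [L, Pi.smul_apply, smul_eq_mul, Int.cast_mul, mul_assoc, mul_sum]

theorem L_neg (v : Fin d → ℂ) (x : Fin d → ℤ) : L v (-x) = -L v x := by
  simp only [L, Pi.neg_apply, Int.cast_neg, neg_mul, sum_neg_distrib]

theorem L_sub (v : Fin d → ℂ) (x y : Fin d → ℤ) : L v (x - y) = L v x - L v y := by
  rw [sub_eq_add_neg, L_add, L_neg, ← sub_eq_add_neg]

/-- `Im (conj (L x) * L y)`: it is zero iff `L x` and `L y` are parallel. -/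
noncomputable def om (v : Fin d → ℂ) (x y : Fin d → ℤ) : ℝ := (conj (L v x) * L v y).im

/-- `Re (conj (L x) * L y)`, the inner product: it is zero iff `L x` and `L y` are perpendicular. -/
noncomputable def pr (v : Fin d → ℂ) (x y : Fin d → ℤ) : ℝ := (conj (L v x) * L v y).re

/-- The integer vectors `y` with `L y` parallel to `L x`. -/
noncomputable def Mo (v : Fin d → ℂ) (x : Fin d → ℤ) : Submodule ℤ (Fin d → ℤ) where
  carrier := {y | om v x y = 0}
  add_mem' := by
    intro y z hy hz
    change (conj (L v x) * L v y).im = 0 at hy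
    change (conj (L v x) * L v z).im = 0 at hz
    change (conj (L v x) * L v (y + z)).im = 0
    rw [L_add, mul_add, Complex.add_im, hy, hz, add_zero]
  zero_mem' := by
    change (conj (L v x) * L v 0).im = 0
    rw [L_zero, mul_zero, Complex.zero_im]
  smul_mem' := by
    intro n y hy
    change (conj (L v x) * L v y).im = 0 at hy
    change (conj (L v x) * L v (n • y)).im = 0
    rw [L_smul, mul_left_comm, Complex.mul_im, Complex.intCast_re, Complex.intCast_im, hy]
    ring

/-- The integer vectors `y` with `L y` perpendicular to `L x`. -/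
noncomputable def Po (v : Fin d → ℂ) (x : Fin d → ℤ) : Submodule ℤ (Fin d → ℤ) where
  carrier := {y | pr v x y = 0}
  add_mem' := by
    intro y z hy hz
    change (conj (L v x) * L v y).re = 0 at hy
    change (conj (L v x) * L v z).re = 0 at hz
    change (conj (L v x) * L v (y + z)).re = 0
    rw [L_add, mul_add, Complex.add_re, hy, hz, add_zero]
  zero_mem' := by
    change (conj (L v x) * L v 0).re = 0
    rw [L_zero, mul_zero, Complex.zero_re]
  smul_mem' := by
    intro n y hy
    change (conj (L v x) * L v y).re = 0 at hy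
    change (conj (L v x) * L v (n • y)).re = 0
    rw [L_smul, mul_left_comm, Complex.mul_re, Complex.intCast_re, Complex.intCast_im, hy]
    ring

theorem mem_Mo {v : Fin d → ℂ} {x y : Fin d → ℤ} : y ∈ Mo v x ↔ om v x y = 0 := Iff.rfl

theorem mem_Po {v : Fin d → ℂ} {x y : Fin d → ℤ} : y ∈ Po v x ↔ pr v x y = 0 := Iff.rfl

/-- The sup norm of an integer vector. -/
def nm (x : Fin d → ℤ) : ℕ := Finset.univ.sup fun i => (x i).natAbs

/-- The cube of the integer vectors of sup norm at most `R`. -/
noncomputable def Bx (d R : ℕ) : Finset (Fin d → ℤ) := Fintype.piFinset fun _ => Finset.Icc (-(R : ℤ)) R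

/-- The vector with rational entries. -/
def toQ (x : Fin d → ℤ) : Fin d → ℚ := fun i => (x i : ℚ)

/-- The dimension of the rational span of a set of integer vectors. -/
noncomputable def rk (X : Set (Fin d → ℤ)) : ℕ := Module.finrank ℚ (Submodule.span ℚ (toQ '' X))

open Classical in
/-- The number of the vectors of sup norm at most `R` in a set. -/
noncomputable def cnt (W : Set (Fin d → ℤ)) (R : ℕ) : ℕ := ((Bx d R).filter (· ∈ W)).card

open Classical in
/-- The sum of `‖y‖ ^ (-d)` over the vectors `y` of sup norm at most `R` in a set. -/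
noncomputable def SS (S : Set (Fin d → ℤ)) (R : ℕ) : ℝ :=
  ∑ y ∈ (Bx d R).filter (· ∈ S), ((nm y : ℝ) ^ d)⁻¹

open Classical in
/-- The number of ordered pairs of perpendicular nonzero vectors of sup norm at most `R`. -/
noncomputable def Zp (v : Fin d → ℂ) (R : ℕ) : ℕ :=
  ((Bx d R ×ˢ Bx d R).filter fun p => p.1 ≠ 0 ∧ p.2 ≠ 0 ∧ pr v p.1 p.2 = 0).card

/-- The nonzero vectors `y` such that the vectors of norm at most `H ‖y‖` parallel to `y` span a space of
dimension at least `d / 2`. -/
def SH (v : Fin d → ℂ) (H : ℕ) : Set (Fin d → ℤ) :=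
  {y | y ≠ 0 ∧ d ≤ 2 * rk {z | z ∈ Mo v y ∧ nm z ≤ H * nm y}}

/-- The rational span of the generators is `lam * K` for a number field `K` of degree `d`, closed under
complex conjugation and not contained in the real numbers. -/
def FieldStr (v : Fin d → ℂ) : Prop :=
  ∃ (K : Subfield ℂ) (lam : ℂ), lam ≠ 0 ∧ (∀ z ∈ K, conj z ∈ K) ∧ (∃ z ∈ K, z.im ≠ 0) ∧
    Module.finrank ℚ K = d ∧
    ∀ z : ℂ, z ∈ Submodule.span ℚ (Set.range v) ↔ ∃ k ∈ K, z = lam * k

end

section poly

variable {m d : ℕ}

/-- The `m × m` minor of an integer matrix with the columns `f 0, ..., f (m-1)`. -/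
def mi (A : Matrix (Fin m) (Fin d) ℤ) (f : Fin m → Fin d) : ℤ := (A.submatrix id f).det

/-- The minor of `A0 + X A1` with the columns `f 0, ..., f (m-1)`, a polynomial in `X`. -/
noncomputable def mp (A0 A1 : Matrix (Fin m) (Fin d) ℤ) (f : Fin m → Fin d) : ℤ[X] :=
  Matrix.det ((X : ℤ[X]) • (A1.submatrix id f).map C + (A0.submatrix id f).map C)

/-- The matrix `A0 + T A1` kills `m` integer vectors (the columns of `Y`) with entries at most `K`, and
`A1 Y` is invertible. -/
def Hyp (A0 A1 : Matrix (Fin m) (Fin d) ℤ) (K : ℕ) (T : ℤ) : Prop :=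
  ∃ Y : Matrix (Fin d) (Fin m) ℤ, (∀ i j, |Y i j| ≤ K) ∧ (A0 + T • A1) * Y = 0 ∧ (A1 * Y).det ≠ 0

/-- A family of integer polynomials whose coefficients have no common prime divisor. -/
def Prim {ι : Type*} (P : ι → ℤ[X]) : Prop :=
  ∀ p : ℕ, p.Prime → ∃ f i, ¬ (p : ℤ) ∣ (P f).coeff i

/-- The greatest common divisor of the values at `T` of a finite family of integer polynomials. -/
noncomputable def hh {ι : Type*} [Fintype ι] (P : ι → ℤ[X]) (T : ℤ) : ℕ :=
  Finset.univ.gcd fun f => ((P f).eval T).natAbs

/-- The data of the rigidity argument: for every `T` in `G` the values at `T` are at most `hh P T * J1`,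
and a combination with coefficients at most `J2` is `ρ (X - T) ^ m`, `ρ ≠ 0`. -/
structure Rdat {ι : Type*} [Fintype ι] (m : ℕ) (P : ι → ℤ[X]) (G : Finset ℤ) (J1 J2 : ℝ) : Prop where
  deg : ∀ f, (P f).natDegree ≤ m
  prim : Prim P
  val : ∀ T ∈ G, ∀ f, |(((P f).eval T : ℤ) : ℝ)| ≤ hh P T * J1
  comb : ∀ T ∈ G, ∃ (ρ : ℤ) (c : ι → ℤ), ρ ≠ 0 ∧ (∀ f, |(c f : ℝ)| ≤ J2) ∧
    ∑ f, C (c f) * P f = C ρ * (X - C T) ^ m

end poly

end Pool.Agent.RL
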