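import Pool.Agent.Lib.MP_6f2296_co.RL.Defs

/-!
# TASK RL Ra: minors (integer linear algebra)

PROOF of `natDegree_mp`, `coeff_mp`, `eval_mp`: `Polynomial.natDegree_det_X_add_C_le`, `Polynomial.coeff_det_X_add_C_card`; for the evaluation use
`RingHom.map_det` for `Polynomial.evalRingHom T` and compare entries.

PROOF of `R1`.  Write `N = m + m`.  Let `E` be the `N × m` matrix with the columns `e_{f 0}, ..., e_{f (m-1)}` (`E i l = 1` if `i = f l`, else `0`), `E_f = E`.  With
`P = Matrix.fromRows A B` (rows indexed by `Fin m ⊕ Fin m`) and `Q = Matrix.fromCols E Y` (columns indexed by `Fin m ⊕ Fin m`):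
`P * Q = fromBlocks (A * E) (A * Y) (B * E) (B * Y)` (`Matrix.fromRows_mul_fromCols`), `A * Y = 0`, `A * E = A.submatrix id f`.  So
`det (P * Q) = mi A f * det (B * Y)` (`Matrix.det_fromBlocks_zero₁₂`).  After reindexing the rows of `Q` (and the columns of `P`) by
`finSumFinEquiv : Fin m ⊕ Fin m ≃ Fin (m + m)` both are square matrices, so
`(*)  mi A f * ρ = Δ * D f`, where `ρ = det (B * Y) ≠ 0`, `Δ` is the determinant of `P` (independent of `f`) and `D f` the determinant of `Q`.
`|D f| ≤ N! * K^m`: in the Leibniz expansion every product has `m` factors `0` or `1` and `m` factors of absolute value at most `K`.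
Let `g` be the greatest common divisor of all `|mi A f|`.  If `g = 0` all minors are `0`.  Otherwise by `(*)`
`g |ρ| = gcd_f |mi A f ρ| = |Δ| gcd_f |D f|` (`Finset.gcd_mul_left`), which is not `0`, so `gcd_f |D f| ≥ 1` and `|Δ| ≤ g |ρ|`.  By `(*)`
`|mi A f| |ρ| = |Δ| |D f| ≤ g |ρ| |D f|`, so `|mi A f| ≤ g |D f| ≤ g N! K^m`.
-/

set_option autoImplicit false

open Finset Polynomial

namespace Pool.Agent.RL

theorem natDegree_mp {m d : ℕ} (A0 A1 : Matrix (Fin m) (Fin d) ℤ) (f : Fin m → Fin d) :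
    (mp A0 A1 f).natDegree ≤ m := by
  have h := Polynomial.natDegree_det_X_add_C_le (A1.submatrix id f) (A0.submatrix id f)
  rw [Fintype.card_fin] at h
  exact h

theorem coeff_mp {m d : ℕ} (A0 A1 : Matrix (Fin m) (Fin d) ℤ) (f : Fin m → Fin d) :
    (mp A0 A1 f).coeff m = mi A1 f := by
  have h := Polynomial.coeff_det_X_add_C_card (A1.submatrix id f) (A0.submatrix id f)
  rw [Fintype.card_fin] at h
  exact h

theorem eval_mp {m d : ℕ} (A0 A1 : Matrix (Fin m) (Fin d) ℤ) (f : Fin m → Fin d) (T : ℤ) :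
    (mp A0 A1 f).eval T = mi (A0 + T • A1) f := by
  unfold mp mi
  rw [← Polynomial.coe_evalRingHom, RingHom.map_det]
  congr 1
  ext i j
  simp only [RingHom.mapMatrix_apply, Matrix.map_apply, Matrix.add_apply, Matrix.smul_apply,
    Matrix.submatrix_apply, id_eq, smul_eq_mul, Polynomial.coe_evalRingHom, Polynomial.eval_add,
    Polynomial.eval_mul, Polynomial.eval_X, Polynomial.eval_C]
  ring

/-- The matrix with the unit columns `g 0, ..., g (m-1)`. -/
private def Ra_E {m : ℕ} (g : Fin m → Fin (m + m)) : Matrix (Fin (m + m)) (Fin m) ℤ :=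
  fun i l => if i = g l then 1 else 0

private theorem Ra_mul_E {m : ℕ} (A : Matrix (Fin m) (Fin (m + m)) ℤ) (g : Fin m → Fin (m + m)) :
    A * Ra_E g = A.submatrix id g := by
  ext i l
  rw [Matrix.mul_apply, Matrix.submatrix_apply]
  simp [Ra_E]

private theorem Ra_det {m : ℕ} (A B : Matrix (Fin m) (Fin (m + m)) ℤ)
    (Y : Matrix (Fin (m + m)) (Fin m) ℤ) (hA : A * Y = 0) (g : Fin m → Fin (m + m)) :
    mi A g * (B * Y).det = ((Matrix.fromRows A B).submatrix id finSumFinEquiv).det *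
      ((Matrix.fromCols (Ra_E g) Y).submatrix finSumFinEquiv id).det := by
  rw [← Matrix.det_mul, Matrix.submatrix_mul_equiv, Matrix.fromRows_mul_fromCols, hA, Ra_mul_E,
    Matrix.submatrix_id_id, Matrix.det_fromBlocks_zero₁₂]
  rfl

private theorem Ra_bound {m : ℕ} (Y : Matrix (Fin (m + m)) (Fin m) ℤ) {K : ℕ}
    (hY : ∀ i j, |Y i j| ≤ K) (g : Fin m → Fin (m + m)) :
    (((Matrix.fromCols (Ra_E g) Y).submatrix finSumFinEquiv id).det).natAbs ≤
      (m + m).factorial * K ^ m := by
  set M : Matrix (Fin m ⊕ Fin m) (Fin m ⊕ Fin m) ℤ :=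
    (Matrix.fromCols (Ra_E g) Y).submatrix finSumFinEquiv id with hM
  have hl : ∀ i l, |M i (Sum.inl l)| ≤ 1 := by
    intro i l
    have h1 : M i (Sum.inl l) = Ra_E g (finSumFinEquiv i) l := rfl
    rw [h1]
    unfold Ra_E
    split_ifs <;> simp
  have hr : ∀ i l, |M i (Sum.inr l)| ≤ (K : ℤ) := by
    intro i l
    have h1 : M i (Sum.inr l) = Y (finSumFinEquiv i) l := rfl
    rw [h1]
    exact hY _ _
  have h1 : |M.det| ≤ ((m + m).factorial * K ^ m : ℕ) := by
    rw [Matrix.det_apply]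
    refine (Finset.abs_sum_le_sum_abs _ _).trans ?_
    have h2 : ∀ σ : Equiv.Perm (Fin m ⊕ Fin m),
        |Equiv.Perm.sign σ • ∏ i, M (σ i) i| ≤ (K : ℤ) ^ m := by
      intro σ
      have h3 : |Equiv.Perm.sign σ • ∏ i, M (σ i) i| = ∏ i, |M (σ i) i| := by
        rw [← Finset.abs_prod]
        rw [Units.smul_def, smul_eq_mul, abs_mul]
        have h8 : |((Equiv.Perm.sign σ : ℤˣ) : ℤ)| = 1 := by
          rcases Int.units_eq_one_or (Equiv.Perm.sign σ) with h | h
          · rw [h]; simp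
          · rw [h]; simp
        rw [h8, one_mul]
      rw [h3, Fintype.prod_sum_type]
      have h4 : ∏ l : Fin m, |M (σ (Sum.inl l)) (Sum.inl l)| ≤ 1 :=
        Finset.prod_le_one (fun _ _ => abs_nonneg _) fun l _ => hl _ l
      have h5 : ∏ l : Fin m, |M (σ (Sum.inr l)) (Sum.inr l)| ≤ (K : ℤ) ^ m := by
        have := Finset.prod_le_prod (s := (Finset.univ : Finset (Fin m)))
          (f := fun l => |M (σ (Sum.inr l)) (Sum.inr l)|) (g := fun _ => (K : ℤ))
          (fun _ _ => abs_nonneg _) fun l _ => hr _ l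
        rw [Finset.prod_const, Finset.card_univ, Fintype.card_fin] at this
        exact this
      have h6 : 0 ≤ ∏ l : Fin m, |M (σ (Sum.inr l)) (Sum.inr l)| :=
        Finset.prod_nonneg fun _ _ => abs_nonneg _
      calc _ ≤ 1 * ∏ l : Fin m, |M (σ (Sum.inr l)) (Sum.inr l)| := mul_le_mul_of_nonneg_right h4 h6
        _ ≤ _ := by rw [one_mul]; exact h5
    refine (Finset.sum_le_sum fun σ _ => h2 σ).trans ?_
    rw [Finset.sum_const, Finset.card_univ, Fintype.card_perm, Fintype.card_sum, Fintype.card_fin]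
    simp
  have h7 : ((M.det.natAbs : ℕ) : ℤ) ≤ (((m + m).factorial * K ^ m : ℕ) : ℤ) := by
    rw [Int.natCast_natAbs]
    exact h1
  exact_mod_cast h7

theorem R1 {m : ℕ} (A B : Matrix (Fin m) (Fin (m + m)) ℤ) (Y : Matrix (Fin (m + m)) (Fin m) ℤ) {K : ℕ}
    (hK : 1 ≤ K) (hY : ∀ i j, |Y i j| ≤ K) (hA : A * Y = 0) (hB : (B * Y).det ≠ 0)
    (f : Fin m → Fin (m + m)) :
    (mi A f).natAbs ≤ (Finset.univ.gcd fun g : Fin m → Fin (m + m) => (mi A g).natAbs) *
      ((m + m).factorial * K ^ m) := by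
  set Δ : ℤ := ((Matrix.fromRows A B).submatrix id finSumFinEquiv).det
  let D : (Fin m → Fin (m + m)) → ℤ := fun g =>
    ((Matrix.fromCols (Ra_E g) Y).submatrix finSumFinEquiv id).det
  have hstar : ∀ g : Fin m → Fin (m + m),
      (mi A g).natAbs * (B * Y).det.natAbs = Δ.natAbs * (D g).natAbs := by
    intro g
    rw [← Int.natAbs_mul, ← Int.natAbs_mul]
    exact congrArg Int.natAbs (Ra_det A B Y hA g)
  have hρ : 0 < (B * Y).det.natAbs := Int.natAbs_pos.2 hB
  set G : ℕ := Finset.univ.gcd fun g : Fin m → Fin (m + m) => (mi A g).natAbs with hG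
  have hdvd : G ∣ (mi A f).natAbs := Finset.gcd_dvd (Finset.mem_univ f)
  rcases Nat.eq_zero_or_pos G with h0 | h0
  · rw [h0] at hdvd
    rw [Nat.eq_zero_of_zero_dvd hdvd]
    exact Nat.zero_le _
  · have h1 : G * (B * Y).det.natAbs = Δ.natAbs * Finset.univ.gcd fun g : Fin m → Fin (m + m) => (D g).natAbs := by
      have h2 := Finset.gcd_mul_right (s := (Finset.univ : Finset (Fin m → Fin (m + m))))
        (f := fun g => (mi A g).natAbs) (a := (B * Y).det.natAbs)
      have h3 := Finset.gcd_mul_left (s := (Finset.univ : Finset (Fin m → Fin (m + m))))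
        (f := fun g => (D g).natAbs) (a := Δ.natAbs)
      rw [normalize_eq] at h2 h3
      rw [← h3, ← h2]
      exact congrArg (Finset.gcd Finset.univ) (funext hstar)
    have h4 : 0 < Δ.natAbs * Finset.univ.gcd fun g : Fin m → Fin (m + m) => (D g).natAbs := by
      rw [← h1]
      exact Nat.mul_pos h0 hρ
    have h5 : 0 < Finset.univ.gcd fun g : Fin m → Fin (m + m) => (D g).natAbs :=
      Nat.pos_of_mul_pos_left h4
    have h6 : Δ.natAbs ≤ G * (B * Y).det.natAbs := by
      rw [h1]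
      exact Nat.le_mul_of_pos_right _ h5
    have h7 : (mi A f).natAbs * (B * Y).det.natAbs ≤ G * (D f).natAbs * (B * Y).det.natAbs := by
      rw [hstar f]
      calc Δ.natAbs * (D f).natAbs ≤ G * (B * Y).det.natAbs * (D f).natAbs := Nat.mul_le_mul_right _ h6
        _ = G * (D f).natAbs * (B * Y).det.natAbs := by ring
    have h8 := Nat.le_of_mul_le_mul_right h7 hρ
    exact h8.trans (Nat.mul_le_mul_left _ (Ra_bound Y hY f))

end Pool.Agent.RL
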