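import Pool.Agent.Lib.MP_6f2296_co.Mg.G010
import Pool.Agent.Lib.MP_6f2296_co.Mg.G009
import Pool.Agent.Lib.MP_6f2296_co.Mg.G012

/-!
# TASK RL MnA: rich lines for sets in `L (Bx d N)`

PROOF of `rich`.  If `d = 0` there is no `i`.  Let `d ≥ 1`, `n = |A| ≥ 3`, `D = numDist A ≥ 1`, `Lg = 1 + log (4N)`, `u = 1 + log (log n) ≥ 1`.  Constants: if `d = m + m` let `CB` be the constant
of `AsmB` (otherwise `CB = 1`), `C5 = max CB (d + 2)`, `C` the maximum of `CB`, the constants of `AsmA` (for `C5`), `AsmC1`, and `C'` that of `AsmC2` for `C`.  The final constant is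
`CF = C'+ C³`.  `N ≥ 1` by `AsmA0`.
Case 1: `n ≤ C D (1 + log Lg)² ≤ C³ D u²`.  Then `CF (D/n) u² ≥ 1 ≥ 1/2`, the exponent is at most `0`, the left side is at most `1`, and for `p ∈ A` the line contains `p`.
Case 2: take `M`, `δ` from `AsmA`, `H = ⌈Lg⌉₊ ≤ 2 Lg`, `Real.log M ≤ log (4N) ≤ Lg`.  For all `x ≠ 0`: `d ≤ 2 rk (Mo v x)`, otherwise by `Al`
`cnt (SH v H) M ≤ cnt {x | d ≤ 2 rk (Mo v x)} M ≤ d (2M+1)^(d-1) < δ (2M+1)^d` (`SH v H` is contained in that set by `rk_mono`; `d < C5 ≤ δ (2M+1)`), a contradiction.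
Let `w = Pi.single i 1`.  If every `y` lies in `Mo v w` then all points of `A` lie on the line `ℝ v i` (`par_iff`, `L_single`), so `p = 0` works (`n^(1/2 - ...) ≤ n`).  Otherwise `half_rank`
gives `2 rk (Mo v w) = d`, so `d = m + m` with `m = rk (Mo v w) ≥ 1`, and `AsmB`, `AsmC2` give the claim (a larger constant makes the left side smaller: `n ≥ 1`).
-/

set_option autoImplicit false

open Finset

namespace Pool.Agent.RL

private theorem MnA_B (d : ℕ) (κ : ℝ) (hκ : 0 < κ) : ∃ CB : ℝ, 1 ≤ CB ∧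
    ∀ m : ℕ, 1 ≤ m → d = m + m →
    ∀ v : Fin d → ℂ, LinearIndependent ℚ v → ∀ (N : ℕ) (A : Finset ℂ),
      (∀ z ∈ A, ∃ x, nm x ≤ N ∧ z = L v x) → κ * (N : ℝ) ^ d ≤ A.card → 1 ≤ A.card →
      ∀ i : Fin d, rk (Mo v (Pi.single i 1) : Set (Fin d → ℤ)) = m →
      ∀ (M H : ℕ) (δ Lg : ℝ), 1 ≤ M → 1 ≤ H → 1 ≤ Lg → 0 < δ → δ ≤ 1 → 1 ≤ δ * Lg →
        (H : ℝ) ≤ 2 * Lg → Real.log M ≤ Lg → CB * Lg ^ 2 ≤ 2 * M + 1 → 2 ≤ δ * (2 * M + 1) →
        δ * (2 * M + 1) ^ d < cnt (SH v H) M →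
        ∃ p : ℂ, Real.sqrt A.card ≤
          CB * Real.exp (CB / δ * (1 + Real.log Lg) ^ 2) * (onLine A p (v i)).card := by
  by_cases h : ∃ m, 1 ≤ m ∧ d = m + m
  · obtain ⟨m, hm, rfl⟩ := h
    obtain ⟨C, hC, hCC⟩ := AsmB m hm κ hκ
    refine ⟨C, hC, fun m' hm' he => ?_⟩
    have hmm : m' = m := by omega
    subst hmm
    exact hCC
  · exact ⟨1, le_rfl, fun m hm he => absurd ⟨m, hm, he⟩ h⟩

theorem rich (d : ℕ) (κ : ℝ) (hκ : 0 < κ) : ∃ C : ℝ, 0 < C ∧
    ∀ v : Fin d → ℂ, LinearIndependent ℚ v → ∀ (N : ℕ) (A : Finset ℂ),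
      (∀ z ∈ A, ∃ x, nm x ≤ N ∧ z = L v x) → κ * (N : ℝ) ^ d ≤ A.card → 3 ≤ A.card →
      ∀ i : Fin d, ∃ p : ℂ, (A.card : ℝ) ^
        (1 / 2 - C * ((numDist A : ℝ) / A.card) * (1 + Real.log (Real.log A.card)) ^ 2) ≤
          (onLine A p (v i)).card := by
  rcases Nat.eq_zero_or_pos d with rfl | hd
  · exact ⟨1, one_pos, fun v _ N A _ _ _ i => i.elim0⟩
  obtain ⟨CB, hCB1, hCB⟩ := MnA_B d κ hκ
  have hC5 : (1 : ℝ) ≤ max CB ((d : ℝ) + 2) := hCB1.trans (le_max_left _ _)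
  obtain ⟨CA, hCA1, hCA⟩ := AsmA d hd κ hκ (max CB ((d : ℝ) + 2)) hC5
  obtain ⟨C1, hC11, hC1⟩ := AsmC1 d hd κ hκ
  obtain ⟨CZ, _, hCZ⟩ := AsmA0 d hd κ hκ
  set C : ℝ := max CB (max CA C1) with hCdef
  have hBC : CB ≤ C := le_max_left _ _
  have hAC : CA ≤ C := (le_max_left _ _).trans (le_max_right _ _)
  have h1C : C1 ≤ C := (le_max_right _ _).trans (le_max_right _ _)
  have hC : 1 ≤ C := hCB1.trans hBC
  have hC0 : 0 < C := lt_of_lt_of_le one_pos hC
  obtain ⟨C', hC'1, hC'⟩ := AsmC2 C hC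
  refine ⟨C' + C ^ 3, by positivity, ?_⟩
  intro v hv N A hA hκN h3 i
  have h2 : 2 ≤ A.card := by omega
  have h1 : 1 ≤ A.card := by omega
  have hN : 1 ≤ N := (hCZ v hv N A hA hκN h2).1
  have hD : 1 ≤ numDist A := by
    have h1' : 1 < A.card := by omega
    obtain ⟨a, ha, b, hb, hab⟩ := Finset.one_lt_card.1 h1'
    unfold numDist
    refine Finset.card_pos.2 ⟨dist a b, Finset.mem_image.2 ⟨(a, b), ?_, rfl⟩⟩
    exact Finset.mem_offDiag.2 ⟨ha, hb, hab⟩
  set Lg : ℝ := 1 + Real.log ((4 * N : ℕ) : ℝ) with hLgdef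
  obtain ⟨hLg1, hLgC, hLgC', hlogn, hloglog⟩ := hC1 N A.card hN h3 hκN Lg hLgdef
  obtain ⟨hA1, hA2⟩ := hCA v hv N A hA hκN h2 Lg hLgdef
  have hn0 : (0 : ℝ) < A.card := by
    have : 0 < A.card := by omega
    exact_mod_cast this
  have hn1 : (1 : ℝ) ≤ A.card := by exact_mod_cast h1
  have hD0 : (1 : ℝ) ≤ numDist A := by exact_mod_cast hD
  have hu : 1 ≤ 1 + Real.log (Real.log A.card) := by linarith
  have hlogLg : 0 ≤ Real.log Lg := Real.log_nonneg hLg1
  have hLgCC : 1 + Real.log Lg ≤ C * (1 + Real.log (Real.log A.card)) :=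
    hLgC'.trans (mul_le_mul_of_nonneg_right h1C (by linarith))
  have hterm : 0 ≤ ((numDist A : ℝ) / A.card) * (1 + Real.log (Real.log A.card)) ^ 2 := by positivity
  rcases hA2 with hcase1 | ⟨M, δ, hM1, hM2, hδ0, hδ1, hδLg, hnδ, hC5M, hC5δ, hcnt⟩
  · -- few points
    have hb1 : (1 + Real.log Lg) ^ 2 ≤ (C * (1 + Real.log (Real.log A.card))) ^ 2 :=
      pow_le_pow_left₀ (by linarith) hLgCC 2
    have hb2 : (A.card : ℝ) ≤ C ^ 3 * numDist A * (1 + Real.log (Real.log A.card)) ^ 2 := by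
      calc (A.card : ℝ) ≤ CA * numDist A * (1 + Real.log Lg) ^ 2 := hcase1
        _ ≤ C * numDist A * (C * (1 + Real.log (Real.log A.card))) ^ 2 := by
            refine mul_le_mul ?_ hb1 (sq_nonneg _) (by positivity)
            exact mul_le_mul_of_nonneg_right hAC (by positivity)
        _ = C ^ 3 * numDist A * (1 + Real.log (Real.log A.card)) ^ 2 := by ring
    have hb3 : 1 ≤ C ^ 3 * ((numDist A : ℝ) / A.card) * (1 + Real.log (Real.log A.card)) ^ 2 := by
      have : C ^ 3 * ((numDist A : ℝ) / A.card) * (1 + Real.log (Real.log A.card)) ^ 2 =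
          (C ^ 3 * numDist A * (1 + Real.log (Real.log A.card)) ^ 2) / A.card := by ring
      rw [this, le_div_iff₀ hn0, one_mul]
      exact hb2
    have hC'0 : 0 ≤ C' * (((numDist A : ℝ) / A.card) * (1 + Real.log (Real.log A.card)) ^ 2) :=
      mul_nonneg (by linarith) hterm
    have hexp : 1 / 2 - (C' + C ^ 3) * ((numDist A : ℝ) / A.card) *
        (1 + Real.log (Real.log A.card)) ^ 2 ≤ 0 := by
      have : (C' + C ^ 3) * ((numDist A : ℝ) / A.card) * (1 + Real.log (Real.log A.card)) ^ 2 =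
          C' * (((numDist A : ℝ) / A.card) * (1 + Real.log (Real.log A.card)) ^ 2) +
          C ^ 3 * ((numDist A : ℝ) / A.card) * (1 + Real.log (Real.log A.card)) ^ 2 := by ring
      rw [this]
      linarith
    obtain ⟨p, hp⟩ := Finset.card_pos.1 (show 0 < A.card by omega)
    refine ⟨p, (Real.rpow_le_one_of_one_le_of_nonpos hn1 hexp).trans ?_⟩
    have hpm : p ∈ onLine A p (v i) := by
      classical
      unfold onLine
      rw [Finset.mem_filter]
      exact ⟨hp, 0, by simp⟩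
    have : 0 < (onLine A p (v i)).card := Finset.card_pos.2 ⟨p, hpm⟩
    exact_mod_cast this
  · -- many points
    have hd2 : (d : ℝ) + 2 ≤ δ * (2 * M + 1) := (le_max_right _ _).trans hC5δ
    have hall : ∀ x : Fin d → ℤ, x ≠ 0 → d ≤ 2 * rk (Mo v x : Set (Fin d → ℤ)) := by
      intro x _
      by_contra hx
      push Not at hx
      have hAl := Al hx M
      have hsub : SH v ⌈Lg⌉₊ ⊆ {x : Fin d → ℤ | d ≤ 2 * rk (Mo v x : Set (Fin d → ℤ))} := by
        intro y hy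
        obtain ⟨_, hy2⟩ := hy
        have hmono : rk {z | z ∈ Mo v y ∧ nm z ≤ ⌈Lg⌉₊ * nm y} ≤ rk (Mo v y : Set (Fin d → ℤ)) :=
          rk_mono (fun z hz => hz.1)
        change d ≤ 2 * rk (Mo v y : Set (Fin d → ℤ))
        omega
      have hc1 : ((cnt (SH v ⌈Lg⌉₊) M : ℕ) : ℝ) ≤ d * (2 * M + 1) ^ (d - 1) := by
        have := (cnt_mono hsub M).trans hAl
        exact_mod_cast this
      have hpd : (2 * (M : ℝ) + 1) ^ d = (2 * M + 1) * (2 * M + 1) ^ (d - 1) := by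
        rw [← pow_succ']
        congr 1
        omega
      have hpos : (0 : ℝ) < (2 * M + 1) ^ (d - 1) := by positivity
      rw [hpd, ← mul_assoc] at hcnt
      have hc2 : ((d : ℝ) + 2) * (2 * M + 1) ^ (d - 1) ≤ δ * (2 * M + 1) * (2 * M + 1) ^ (d - 1) :=
        mul_le_mul_of_nonneg_right hd2 hpos.le
      nlinarith
    have hw : (Pi.single i 1 : Fin d → ℤ) ≠ 0 := by
      intro h
      have := congrFun h i
      simp at this
    by_cases hy : ∀ y, y ∈ Mo v (Pi.single i 1)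
    · refine ⟨0, ?_⟩
      have hfull : onLine A 0 (v i) = A := by
        classical
        unfold onLine
        rw [Finset.filter_eq_self]
        intro z hz
        obtain ⟨x, _, rfl⟩ := hA z hz
        obtain ⟨t, ht⟩ := (par_iff hv hw).1 (hy x)
        refine ⟨t, ?_⟩
        rw [ht, L_single, zero_add]
      rw [hfull]
      have hexp : 1 / 2 - (C' + C ^ 3) * ((numDist A : ℝ) / A.card) *
          (1 + Real.log (Real.log A.card)) ^ 2 ≤ 1 := by
        have h5 : 0 ≤ (C' + C ^ 3) * (((numDist A : ℝ) / A.card) *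
            (1 + Real.log (Real.log A.card)) ^ 2) := by positivity
        rw [← mul_assoc] at h5
        linarith
      calc (A.card : ℝ) ^ (1 / 2 - (C' + C ^ 3) * ((numDist A : ℝ) / A.card) *
            (1 + Real.log (Real.log A.card)) ^ 2) ≤ (A.card : ℝ) ^ (1 : ℝ) :=
            Real.rpow_le_rpow_of_exponent_le hn1 hexp
        _ = A.card := Real.rpow_one _
    · push Not at hy
      obtain ⟨y, hy⟩ := hy
      have hhalf := half_rank hv hall hw hy
      have hm1 : 1 ≤ rk (Mo v (Pi.single i 1) : Set (Fin d → ℤ)) := by omega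
      have hH1 : 1 ≤ ⌈Lg⌉₊ := Nat.one_le_ceil_iff.2 (by linarith)
      have hH2 : ((⌈Lg⌉₊ : ℕ) : ℝ) ≤ 2 * Lg := by
        have := Nat.ceil_lt_add_one (show 0 ≤ Lg by linarith)
        linarith
      have hlogM : Real.log M ≤ Lg := by
        have hM0 : (0 : ℝ) < M := by exact_mod_cast hM1
        have h6 : Real.log M ≤ Real.log ((4 * N : ℕ) : ℝ) :=
          Real.log_le_log hM0 (by exact_mod_cast hM2)
        linarith
      have hCBLg : CB * Lg ^ 2 ≤ 2 * M + 1 :=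
        (mul_le_mul_of_nonneg_right (le_max_left _ _) (sq_nonneg _)).trans hC5M
      have h2δ : 2 ≤ δ * (2 * M + 1) := by
        have : (0 : ℝ) ≤ d := Nat.cast_nonneg d
        linarith
      obtain ⟨p, hp⟩ := hCB (rk (Mo v (Pi.single i 1) : Set (Fin d → ℤ))) hm1 (by omega) v hv N A
        hA hκN h1 i rfl M ⌈Lg⌉₊ δ Lg hM1 hH1 hLg1 hδ0 hδ1 hδLg hH2 hlogM hCBLg h2δ hcnt
      refine ⟨p, ?_⟩
      have hs : Real.sqrt A.card ≤
          C * Real.exp (C / δ * (1 + Real.log Lg) ^ 2) * (onLine A p (v i)).card := by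
        refine hp.trans (mul_le_mul_of_nonneg_right ?_ (Nat.cast_nonneg _))
        refine mul_le_mul hBC (Real.exp_le_exp.2 ?_) (Real.exp_pos _).le hC0.le
        exact mul_le_mul_of_nonneg_right (div_le_div_of_nonneg_right hBC hδ0.le) (sq_nonneg _)
      have hfin := hC' A.card (numDist A) (onLine A p (v i)).card δ Lg h3 hD hLg1
        (hLgC.trans (mul_le_mul_of_nonneg_right h1C (by linarith))) hLgCC hδ0
        (hA1.trans (mul_le_mul_of_nonneg_right (mul_le_mul_of_nonneg_right hAC (by linarith))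
          (by linarith)))
        (hnδ.trans (mul_le_mul_of_nonneg_right (mul_le_mul_of_nonneg_right hAC (by linarith))
          (by linarith))) hs
      refine le_trans (Real.rpow_le_rpow_of_exponent_le hn1 ?_) hfin
      have h7 : 0 ≤ C ^ 3 * (((numDist A : ℝ) / A.card) * (1 + Real.log (Real.log A.card)) ^ 2) := by
        positivity
      have h8 : (C' + C ^ 3) * ((numDist A : ℝ) / A.card) * (1 + Real.log (Real.log A.card)) ^ 2 =
          C' * ((numDist A : ℝ) / A.card) * (1 + Real.log (Real.log A.card)) ^ 2 +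
          C ^ 3 * (((numDist A : ℝ) / A.card) * (1 + Real.log (Real.log A.card)) ^ 2) := by ring
      rw [h8]
      linarith

end Pool.Agent.RL
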