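import Pool.Agent.Lib.MP_6f2296_co.Mg.G010
import Pool.Agent.Lib.MP_6f2296_co.Mg.G012

/-!
# TASK RL MnS: the structure for sets in `L (Bx d N)` with few distances

PROOF of `structure_of_few`.  `d = 0`: `|A| ≤ 1`, impossible.  Let `C4` be the constant of `AsmA0`, `C2` that of `Sc2`; `n ≥ 2`, `D ≥ 1`, `D ≤ c n`.  If `2 rk (Mo v x₀) < d` for some `x₀` then by `Al` and `Sc2` (with
`K = d`, `SH v H ⊆ {x | d ≤ 2 rk (Mo v x)}`) `SS (SH v H) (4N) ≤ C2 d`, so `n ≤ C4 D (1 + C2 d) ≤ C4 c n (1 + C2 d) < n` for small `c`, a contradiction.  So all ranks are at least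
`d/2` and `StB` applies.  If `Zp v R ≤ 2 (4R+1)^d` for all `R` then by `Ds` `n²/4 ≤ (n-1)² ≤ D (2 (16N+1)^d + 2 (8N+1)^d) ≤ D * 4 * 17^d N^d ≤ D * 4 * 17^d n/κ`, so
`n ≤ 16 * 17^d D/κ ≤ 16 * 17^d c n/κ < n` for small `c`, a contradiction.  So `FieldStr v`.
-/

set_option autoImplicit false

open Finset

namespace Pool.Agent.RL

private theorem MnS_sub {d : ℕ} (v : Fin d → ℂ) (H : ℕ) :
    SH v H ⊆ {x : Fin d → ℤ | d ≤ 2 * rk (Mo v x : Set (Fin d → ℤ))} := by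
  rintro y ⟨_, hy⟩
  refine hy.trans (Nat.mul_le_mul_left 2 (rk_mono ?_))
  rintro z ⟨hz, _⟩
  exact hz

private theorem MnS_zero (κ : ℝ) : ∃ c : ℝ, 0 < c ∧
    ∀ v : Fin 0 → ℂ, LinearIndependent ℚ v → ∀ (N : ℕ) (A : Finset ℂ),
      (∀ z ∈ A, ∃ x, nm x ≤ N ∧ z = L v x) → κ * (N : ℝ) ^ 0 ≤ A.card → 2 ≤ A.card →
      (numDist A : ℝ) ≤ c * A.card → FieldStr v := by
  refine ⟨1, one_pos, fun v _ N A hA _ h2 _ => ?_⟩
  exfalso
  have h3 : A ⊆ {0} := by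
    intro z hz
    obtain ⟨x, _, rfl⟩ := hA z hz
    rw [mem_singleton]
    unfold L
    simp
  have h4 := card_le_card h3
  rw [card_singleton] at h4
  omega

theorem structure_of_few (d : ℕ) (κ : ℝ) (hκ : 0 < κ) : ∃ c : ℝ, 0 < c ∧
    ∀ v : Fin d → ℂ, LinearIndependent ℚ v → ∀ (N : ℕ) (A : Finset ℂ),
      (∀ z ∈ A, ∃ x, nm x ≤ N ∧ z = L v x) → κ * (N : ℝ) ^ d ≤ A.card → 2 ≤ A.card →
      (numDist A : ℝ) ≤ c * A.card → FieldStr v := by
  rcases Nat.eq_zero_or_pos d with rfl | hd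
  · exact MnS_zero κ
  obtain ⟨C4, hC4, h4⟩ := AsmA0 d hd κ hκ
  obtain ⟨C2, hC2, h2⟩ := Sc2 d hd
  have hd0 : (0 : ℝ) ≤ d := Nat.cast_nonneg d
  have hC2' : (0 : ℝ) < 1 + C2 * d := by
    have : 0 ≤ C2 * d := mul_nonneg (by linarith) hd0
    linarith
  have hP : (0 : ℝ) < 2 * C4 * (1 + C2 * d) := mul_pos (by linarith) hC2'
  have h17 : (0 : ℝ) < 32 * 17 ^ d := by positivity
  refine ⟨min (1 / (2 * C4 * (1 + C2 * d))) (κ / (32 * 17 ^ d)), lt_min (one_div_pos.2 hP) (div_pos hκ h17), ?_⟩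
  intro v hv N A hA hκA hA2 hD
  obtain ⟨hN, hn⟩ := h4 v hv N A hA hκA hA2
  have hn2 : (2 : ℝ) ≤ A.card := by exact_mod_cast hA2
  have hn0 : (0 : ℝ) < A.card := by linarith
  have hD1 : (numDist A : ℝ) * (2 * C4 * (1 + C2 * d)) ≤ A.card := by
    have e1 := hD.trans (mul_le_mul_of_nonneg_right (min_le_left _ _) hn0.le)
    have e2 := mul_le_mul_of_nonneg_right e1 hP.le
    have e3 : 1 / (2 * C4 * (1 + C2 * d)) * (A.card : ℝ) * (2 * C4 * (1 + C2 * d)) = A.card := by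
      field_simp
    rwa [e3] at e2
  have hD2 : (numDist A : ℝ) * (32 * 17 ^ d) ≤ κ * A.card := by
    have e1 := hD.trans (mul_le_mul_of_nonneg_right (min_le_right _ _) hn0.le)
    have e2 := mul_le_mul_of_nonneg_right e1 h17.le
    have e3 : κ / (32 * 17 ^ d) * (A.card : ℝ) * (32 * 17 ^ d) = κ * A.card := by
      field_simp
    rwa [e3] at e2
  have hall : ∀ x : Fin d → ℤ, x ≠ 0 → d ≤ 2 * rk (Mo v x : Set (Fin d → ℤ)) := by
    intro x₀ _
    by_contra hx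
    rw [not_le] at hx
    have h5 : SS (SH v ⌈1 + Real.log ((4 * N : ℕ) : ℝ)⌉₊) (4 * N) ≤ C2 * d := by
      refine h2 _ d (4 * N) hd0 (by omega) fun M _ _ => ?_
      have h6 := (cnt_mono (MnS_sub v ⌈1 + Real.log ((4 * N : ℕ) : ℝ)⌉₊) M).trans (Al hx M)
      exact_mod_cast h6
    have h6 : (A.card : ℝ) ≤ C4 * numDist A * (1 + C2 * d) := by
      refine hn.trans (mul_le_mul_of_nonneg_left (by linarith) ?_)
      exact mul_nonneg (by linarith) (Nat.cast_nonneg _)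
    have h7 : C4 * numDist A * (1 + C2 * d) * 2 = numDist A * (2 * C4 * (1 + C2 * d)) := by ring
    linarith
  rcases StB hv hall with hZ | hF
  · exfalso
    have h5 := Ds v N A hA (by omega)
    have hN1 : (1 : ℝ) ≤ N := by exact_mod_cast hN
    have h6 : ((Zp v (4 * N) : ℕ) : ℝ) ≤ 2 * (17 * (N : ℝ)) ^ d := by
      have e1 := hZ (4 * N)
      have e2 : ((Zp v (4 * N) : ℕ) : ℝ) ≤ 2 * (4 * (4 * (N : ℝ)) + 1) ^ d := by exact_mod_cast e1
      refine e2.trans (mul_le_mul_of_nonneg_left (pow_le_pow_left₀ (by positivity) (by linarith) d) (by norm_num))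
    have h7 : (2 : ℝ) * (8 * N + 1) ^ d ≤ 2 * (17 * (N : ℝ)) ^ d :=
      mul_le_mul_of_nonneg_left (pow_le_pow_left₀ (by positivity) (by linarith) d) (by norm_num)
    have h8 : ((A.card : ℝ) - 1) ^ 2 ≤ numDist A * (4 * (17 * (N : ℝ)) ^ d) := by
      refine h5.trans (mul_le_mul_of_nonneg_left (by linarith) (Nat.cast_nonneg _))
    have h9 : ((A.card : ℝ) / 2) ^ 2 ≤ ((A.card : ℝ) - 1) ^ 2 :=
      pow_le_pow_left₀ (by linarith) (by linarith) 2
    have h10 : κ * ((A.card : ℝ) / 2) ^ 2 ≤ κ * (numDist A * (4 * (17 * (N : ℝ)) ^ d)) :=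
      mul_le_mul_of_nonneg_left (h9.trans h8) hκ.le
    have h11 : κ * (numDist A * (4 * (17 * (N : ℝ)) ^ d)) =
        numDist A * 4 * 17 ^ d * (κ * (N : ℝ) ^ d) := by
      rw [mul_pow]
      ring
    have h12 : numDist A * 4 * 17 ^ d * (κ * (N : ℝ) ^ d) ≤ numDist A * 4 * 17 ^ d * (A.card : ℝ) :=
      mul_le_mul_of_nonneg_left hκA (by positivity)
    have h13 : numDist A * 4 * 17 ^ d * (A.card : ℝ) * 8 ≤ κ * A.card * A.card := by
      have e1 := mul_le_mul_of_nonneg_right hD2 hn0.le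
      calc numDist A * 4 * 17 ^ d * (A.card : ℝ) * 8 = numDist A * (32 * 17 ^ d) * A.card := by ring
        _ ≤ _ := e1
    have h14 : 0 < κ * A.card * A.card := mul_pos (mul_pos hκ hn0) hn0
    nlinarith
  · exact hF

end Pool.Agent.RL
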