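import Pool.Agent.Lib.MP_6f2296_co.RL.MnA
import Pool.Agent.Lib.MP_6f2296_co.RL.MnS

/-!
# TASK RL MnB: the form of the question, and translations

PROOF of `rich_Q1`.  Let `C` be the constant of `rich`.  `C K (1 + log (log n))² / √(log n) → 0` as `n → ∞`, so there is `n₀ ≥ 3` such that it is at most `1/2 - ε` for `n ≥ n₀` (`K ≥ 0` may be assumed, otherwise
replace `K` by `max K 0`).  For `n = |A| ≥ n₀`: `numDist A / n ≤ K/√(log n)`, so the exponent in `rich` is at least `ε` and `n^ε ≤ n^(exponent)`.  For `2 ≤ n < n₀`: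
`n^ε ≤ n^1 ≤ n₀`, so with `c = 1/n₀` the left side is at most `1` and the line through a point `p ∈ A` works.

PROOF of `numDist_sub`, `onLine_sub`: translations preserve distances and lines (`Finset.card_bij`, `Finset.card_image_of_injective`).

PROOF of `all_parts`: apply `rich`, `rich_Q1`, `structure_of_few` to `A' = A.image (fun z => z - z₀)`: `A'` has the same cardinality, the same number of distances,
`z - z₀ = L v a` with `nm a ≤ N` (`nm_le_iff`), and the points of `A'` on `p + ℝ w` correspond to the points of `A` on `(p + z₀) + ℝ w`.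
-/

set_option autoImplicit false

open Finset

namespace Pool.Agent.RL

/-- `A` is contained in the cube `{z₀ + ∑ a i v i | |a i| ≤ N}`. -/
def InCube {d : ℕ} (v : Fin d → ℂ) (z₀ : ℂ) (N : ℕ) (A : Finset ℂ) : Prop :=
  ∀ z ∈ A, ∃ a : Fin d → ℤ, (∀ i, |a i| ≤ N) ∧ z = z₀ + ∑ i, (a i : ℂ) * v i

private theorem MnB_lim (C K ε : ℝ) (hC : 0 < C) (hK : 0 ≤ K) (hε : ε < 1 / 2) : ∃ n₀ : ℕ, 3 ≤ n₀ ∧
    ∀ n : ℕ, n₀ ≤ n → C * (K / Real.sqrt (Real.log n)) * (1 + Real.log (Real.log n)) ^ 2 ≤ 1 / 2 - ε := by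
  set η : ℝ := 1 / 2 - ε with hη
  have hη0 : 0 < η := by linarith
  set r₀ : ℝ := 64 * C * K / η with hr₀
  have hr₀0 : 0 ≤ r₀ := by positivity
  refine ⟨max 3 ⌈Real.exp (r₀ ^ 8 + 1)⌉₊, le_max_left _ _, ?_⟩
  intro n hn
  have h1 : Real.exp (r₀ ^ 8 + 1) ≤ n :=
    (Nat.le_ceil _).trans (by exact_mod_cast (le_max_right _ _).trans hn)
  have hx : r₀ ^ 8 + 1 ≤ Real.log n := by
    rw [Real.le_log_iff_exp_le ((Real.exp_pos _).trans_le h1)]
    exact h1
  set x : ℝ := Real.log n with hxd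
  have hx1 : 1 ≤ x := by have : 0 ≤ r₀ ^ 8 := by positivity
                         linarith
  set r : ℝ := Real.sqrt (Real.sqrt (Real.sqrt x)) with hr
  have hr0 : 0 ≤ r := Real.sqrt_nonneg _
  have hr2 : r ^ 2 = Real.sqrt (Real.sqrt x) := Real.sq_sqrt (Real.sqrt_nonneg _)
  have hr4 : r ^ 4 = Real.sqrt x := by
    calc r ^ 4 = (r ^ 2) ^ 2 := by ring
      _ = Real.sqrt x := by rw [hr2, Real.sq_sqrt (Real.sqrt_nonneg _)]
  have hr8 : r ^ 8 = x := by
    calc r ^ 8 = (r ^ 4) ^ 2 := by ring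
      _ = x := by rw [hr4, Real.sq_sqrt (by linarith)]
  have hr1 : 1 ≤ r := by
    by_contra hlt
    push Not at hlt
    have : r ^ 8 < 1 := pow_lt_one₀ hr0 hlt (by norm_num)
    linarith
  have hrr : r₀ ≤ r := by
    by_contra hlt
    push Not at hlt
    have : r ^ 8 ≤ r₀ ^ 8 := pow_le_pow_left₀ hr0 hlt.le 8
    linarith
  have hlog : Real.log x ≤ 8 * (r - 1) := by
    rw [← hr8, Real.log_pow]
    have := Real.log_le_sub_one_of_pos (lt_of_lt_of_le one_pos hr1)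
    push_cast
    linarith
  have hlog0 : 0 ≤ Real.log x := Real.log_nonneg hx1
  have h2 : (1 + Real.log x) ^ 2 ≤ 64 * r ^ 2 := by
    calc (1 + Real.log x) ^ 2 ≤ (8 * r) ^ 2 := pow_le_pow_left₀ (by linarith) (by linarith) 2
      _ = 64 * r ^ 2 := by ring
  rw [← hr4]
  have hrp : 0 < r := by linarith
  calc C * (K / r ^ 4) * (1 + Real.log x) ^ 2 ≤ C * (K / r ^ 4) * (64 * r ^ 2) :=
        mul_le_mul_of_nonneg_left h2 (by positivity)
    _ = 64 * C * K / r ^ 2 := by field_simp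
    _ ≤ 64 * C * K / r := by
        apply div_le_div_of_nonneg_left (by positivity) hrp
        nlinarith
    _ ≤ η := by
        rw [div_le_iff₀ hrp]
        have : 64 * C * K = r₀ * η := by rw [hr₀]; field_simp
        rw [this, mul_comm]
        exact mul_le_mul_of_nonneg_left hrr hη0.le

theorem rich_Q1 (d : ℕ) (κ : ℝ) (hκ : 0 < κ) (ε K : ℝ) (hε : ε < 1 / 2) : ∃ c : ℝ, 0 < c ∧
    ∀ v : Fin d → ℂ, LinearIndependent ℚ v → ∀ (N : ℕ) (A : Finset ℂ),
      (∀ z ∈ A, ∃ x, nm x ≤ N ∧ z = L v x) → κ * (N : ℝ) ^ d ≤ A.card → 2 ≤ A.card →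
      (numDist A : ℝ) ≤ K * A.card / Real.sqrt (Real.log A.card) →
      ∀ i : Fin d, ∃ p : ℂ, c * (A.card : ℝ) ^ ε ≤ (onLine A p (v i)).card := by
  classical
  obtain ⟨C, hC, hrich⟩ := rich d κ hκ
  obtain ⟨n₀, hn₀, hlim⟩ := MnB_lim C (max K 0) ε hC (le_max_right _ _) hε
  have hn₀r : (3 : ℝ) ≤ n₀ := by exact_mod_cast hn₀
  refine ⟨1 / n₀, by positivity, ?_⟩
  intro v hv N A hA hκA h2 hD i
  have h2r : (2 : ℝ) ≤ A.card := by exact_mod_cast h2
  by_cases hlt : A.card < n₀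
  · have hne : A.Nonempty := Finset.card_pos.1 (by omega)
    obtain ⟨p, hp⟩ := hne
    refine ⟨p, ?_⟩
    have h1 : 1 ≤ (onLine A p (v i)).card := by
      apply Finset.card_pos.2
      refine ⟨p, ?_⟩
      unfold onLine
      rw [Finset.mem_filter]
      exact ⟨hp, 0, by simp⟩
    have h1r : (1 : ℝ) ≤ (onLine A p (v i)).card := by exact_mod_cast h1
    have h3 : (A.card : ℝ) ^ ε ≤ A.card := by
      calc (A.card : ℝ) ^ ε ≤ (A.card : ℝ) ^ (1 : ℝ) :=
            Real.rpow_le_rpow_of_exponent_le (by linarith) (by linarith)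
        _ = A.card := Real.rpow_one _
    have h4 : (A.card : ℝ) ≤ n₀ := by exact_mod_cast hlt.le
    have h5 : 1 / (n₀ : ℝ) * (A.card : ℝ) ^ ε ≤ 1 := by
      rw [one_div, inv_mul_le_iff₀ (by linarith), mul_one]
      exact h3.trans h4
    exact h5.trans h1r
  · push Not at hlt
    obtain ⟨p, hp⟩ := hrich v hv N A hA hκA (hn₀.trans hlt) i
    refine ⟨p, le_trans ?_ hp⟩
    have hn : (0 : ℝ) < A.card := by linarith
    have hl : 0 < Real.log A.card := Real.log_pos (by linarith)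
    have hs : 0 < Real.sqrt (Real.log A.card) := Real.sqrt_pos.2 hl
    have h3 : (numDist A : ℝ) / A.card ≤ max K 0 / Real.sqrt (Real.log A.card) := by
      rw [div_le_div_iff₀ hn hs]
      have e1 : (numDist A : ℝ) ≤ max K 0 * A.card / Real.sqrt (Real.log A.card) := by
        refine hD.trans ?_
        apply div_le_div_of_nonneg_right _ hs.le
        exact mul_le_mul_of_nonneg_right (le_max_left _ _) hn.le
      rwa [le_div_iff₀ hs] at e1
    have h4 := hlim A.card hlt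
    have h5 : C * ((numDist A : ℝ) / A.card) * (1 + Real.log (Real.log A.card)) ^ 2 ≤ 1 / 2 - ε := by
      refine le_trans ?_ h4
      apply mul_le_mul_of_nonneg_right _ (sq_nonneg _)
      exact mul_le_mul_of_nonneg_left h3 hC.le
    have h6 : (A.card : ℝ) ^ ε ≤ (A.card : ℝ) ^
        (1 / 2 - C * ((numDist A : ℝ) / A.card) * (1 + Real.log (Real.log A.card)) ^ 2) :=
      Real.rpow_le_rpow_of_exponent_le (by linarith) (by linarith)
    have h7 : 1 / (n₀ : ℝ) * (A.card : ℝ) ^ ε ≤ (A.card : ℝ) ^ ε := by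
      apply mul_le_of_le_one_left (Real.rpow_nonneg hn.le _)
      rw [div_le_one (by linarith)]
      linarith
    exact h7.trans h6

theorem numDist_sub (A : Finset ℂ) (z₀ : ℂ) : numDist (A.image fun z => z - z₀) = numDist A := by
  classical
  unfold numDist
  congr 1
  ext r
  simp only [Finset.mem_image, Finset.mem_offDiag, Prod.exists]
  constructor
  · rintro ⟨a, b, ⟨⟨x, hx, rfl⟩, ⟨y, hy, rfl⟩, hne⟩, rfl⟩
    refine ⟨x, y, ⟨hx, hy, fun h => hne (by rw [h])⟩, ?_⟩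
    rw [dist_sub_right]
  · rintro ⟨x, y, ⟨hx, hy, hne⟩, rfl⟩
    refine ⟨x - z₀, y - z₀, ⟨⟨x, hx, rfl⟩, ⟨y, hy, rfl⟩, fun h => hne (sub_left_injective h)⟩, ?_⟩
    rw [dist_sub_right]

theorem onLine_sub (A : Finset ℂ) (z₀ p w : ℂ) :
    (onLine (A.image fun z => z - z₀) p w).card = (onLine A (p + z₀) w).card := by
  classical
  symm
  have hinj : Function.Injective (fun z : ℂ => z - z₀) := sub_left_injective
  rw [← Finset.card_image_of_injective (onLine A (p + z₀) w) hinj]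
  congr 1
  ext z
  unfold onLine
  simp only [Finset.mem_image, Finset.mem_filter]
  constructor
  · rintro ⟨x, ⟨hx, t, ht⟩, rfl⟩
    exact ⟨⟨x, hx, rfl⟩, t, by rw [ht]; ring⟩
  · rintro ⟨⟨x, hx, rfl⟩, t, ht⟩
    exact ⟨x, ⟨hx, t, by linear_combination ht⟩, rfl⟩

private theorem MnB_cube {d : ℕ} {v : Fin d → ℂ} {z₀ : ℂ} {N : ℕ} {A : Finset ℂ} (h : InCube v z₀ N A) :
    ∀ z ∈ A.image (fun z => z - z₀), ∃ x, nm x ≤ N ∧ z = L v x := by
  intro z hz
  rw [Finset.mem_image] at hz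
  obtain ⟨y, hy, rfl⟩ := hz
  obtain ⟨a, ha, hay⟩ := h y hy
  refine ⟨a, nm_le_iff.2 ha, ?_⟩
  rw [hay]
  unfold L
  ring

theorem all_parts (d : ℕ) (κ : ℝ) (hκ : 0 < κ) :
    (∃ C : ℝ, 0 < C ∧ ∀ v : Fin d → ℂ, LinearIndependent ℚ v → ∀ (z₀ : ℂ) (N : ℕ) (A : Finset ℂ),
      InCube v z₀ N A → κ * (N : ℝ) ^ d ≤ A.card → 3 ≤ A.card → ∀ i : Fin d, ∃ p : ℂ,
        (A.card : ℝ) ^ (1 / 2 - C * ((numDist A : ℝ) / A.card) *
          (1 + Real.log (Real.log A.card)) ^ 2) ≤ (onLine A p (v i)).card) ∧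
    (∀ ε K : ℝ, ε < 1 / 2 → ∃ c : ℝ, 0 < c ∧ ∀ v : Fin d → ℂ, LinearIndependent ℚ v →
      ∀ (z₀ : ℂ) (N : ℕ) (A : Finset ℂ), InCube v z₀ N A → κ * (N : ℝ) ^ d ≤ A.card → 2 ≤ A.card →
      (numDist A : ℝ) ≤ K * A.card / Real.sqrt (Real.log A.card) → ∀ i : Fin d, ∃ p : ℂ,
        c * (A.card : ℝ) ^ ε ≤ (onLine A p (v i)).card) ∧
    ∃ c : ℝ, 0 < c ∧ ∀ v : Fin d → ℂ, LinearIndependent ℚ v → ∀ (z₀ : ℂ) (N : ℕ) (A : Finset ℂ),
      InCube v z₀ N A → κ * (N : ℝ) ^ d ≤ A.card → 2 ≤ A.card →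
      (numDist A : ℝ) ≤ c * A.card → FieldStr v := by
  have hcard : ∀ (A : Finset ℂ) (z₀ : ℂ), (A.image fun z => z - z₀).card = A.card := fun A z₀ =>
    Finset.card_image_of_injective A sub_left_injective
  refine ⟨?_, ?_, ?_⟩
  · obtain ⟨C, hC, h⟩ := rich d κ hκ
    refine ⟨C, hC, ?_⟩
    intro v hv z₀ N A hA hκA h3 i
    obtain ⟨p, hp⟩ := h v hv N _ (MnB_cube hA) (by rw [hcard]; exact hκA) (by rw [hcard]; exact h3) i
    refine ⟨p + z₀, ?_⟩
    rw [hcard, numDist_sub, onLine_sub] at hp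
    exact hp
  · intro ε K hε
    obtain ⟨c, hc, h⟩ := rich_Q1 d κ hκ ε K hε
    refine ⟨c, hc, ?_⟩
    intro v hv z₀ N A hA hκA h2 hD i
    obtain ⟨p, hp⟩ := h v hv N _ (MnB_cube hA) (by rw [hcard]; exact hκA) (by rw [hcard]; exact h2)
      (by rw [hcard, numDist_sub]; exact hD) i
    refine ⟨p + z₀, ?_⟩
    rw [hcard, onLine_sub] at hp
    exact hp
  · obtain ⟨c, hc, h⟩ := structure_of_few d κ hκ
    refine ⟨c, hc, ?_⟩
    intro v hv z₀ N A hA hκA h2 hD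
    exact h v hv N _ (MnB_cube hA) (by rw [hcard]; exact hκA) (by rw [hcard]; exact h2)
      (by rw [hcard, numDist_sub]; exact hD)

end Pool.Agent.RL
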